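import Pool.Agent.Elton955.Mazur

/-!
# Subsequences with basis constant at most `1 + η`
-/

set_option autoImplicit false

open Filter Finset Topology

namespace Pool.Agent.Y276.El

theorem mazur_eta {E : Type*} [NormedAddCommGroup E] [NormedSpace ℝ E] (x : ℕ → E)
    (hx1 : ∀ n, ‖x n‖ = 1)
    (hx0 : ∀ f : E →L[ℝ] ℝ, Tendsto (fun n => f (x n)) atTop (𝓝 0))
    (η : ℝ) (hη : 0 < η) :
    ∃ φ : ℕ → ℕ, StrictMono φ ∧ ∀ (a : ℕ → ℝ) (m n : ℕ), m ≤ n →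
      ‖∑ i ∈ range m, a i • x (φ i)‖ ≤ (1 + η) * ‖∑ i ∈ range n, a i • x (φ i)‖ := by
  obtain ⟨θ, hθ⟩ : ∃ θ : ℝ, θ = η / (1 + η) := ⟨_, rfl⟩
  have hθ0 : 0 < θ := by rw [hθ]; positivity
  have hθ1 : (1 + η) * (1 - θ) = 1 := by rw [hθ]; field_simp; ring
  have hθ2 : θ < 1 := by
    rw [hθ, div_lt_one (by positivity)]
    linarith
  have hg : ∀ (k N : ℕ), ∃ n > N, ∀ y ∈ Submodule.span ℝ (x '' Set.Iic N), ∀ t : ℝ,
      (1 - θ * (1 / 2 : ℝ) ^ (k + 2)) * ‖y‖ ≤ ‖y + t • x n‖ := by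
    intro k N
    have : FiniteDimensional ℝ (Submodule.span ℝ (x '' Set.Iic N)) :=
      FiniteDimensional.span_of_finite ℝ ((Set.finite_Iic N).image x)
    exact Elton955.Mazur.mazur_step x hx1 hx0 _ _ (by positivity) N
  choose g hg1 hg2 using hg
  obtain ⟨φ, hφ⟩ : ∃ φ : ℕ → ℕ, ∀ k, φ (k + 1) = g (k + 1) (φ k) :=
    ⟨fun k => Nat.rec 0 (fun k v => g (k + 1) v) k, fun _ => rfl⟩
  have hmono : StrictMono φ := strictMono_nat_of_lt_succ fun k => by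
    rw [hφ]; exact hg1 _ _
  refine ⟨φ, hmono, fun a m n hmn => ?_⟩
  have hstep : ∀ k, (1 - θ * (1 / 2 : ℝ) ^ (k + 2)) * ‖∑ i ∈ range k, a i • x (φ i)‖ ≤
      ‖∑ i ∈ range (k + 1), a i • x (φ i)‖ := by
    intro k
    rw [sum_range_succ]
    rcases Nat.eq_zero_or_pos k with rfl | hk
    · simp
    · obtain ⟨l, rfl⟩ : ∃ l, k = l + 1 := ⟨k - 1, by omega⟩
      rw [hφ l]
      apply hg2
      refine Submodule.sum_mem _ fun i hi => Submodule.smul_mem _ _ (Submodule.subset_span ?_)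
      exact ⟨φ i, hmono.monotone (Nat.lt_succ_iff.1 (mem_range.1 hi)), rfl⟩
  have key : ∀ n, m ≤ n → ((1 - θ) + θ * (1 / 2 : ℝ) ^ n) * ‖∑ i ∈ range m, a i • x (φ i)‖ ≤
      ‖∑ i ∈ range n, a i • x (φ i)‖ := by
    intro n hn
    induction n, hn using Nat.le_induction with
    | base =>
      have h1 : (1 / 2 : ℝ) ^ m ≤ 1 := pow_le_one₀ (by norm_num) (by norm_num)
      have h2 : 0 ≤ ‖∑ i ∈ range m, a i • x (φ i)‖ := norm_nonneg _
      have h3 : (1 - θ) + θ * (1 / 2 : ℝ) ^ m ≤ 1 := by nlinarith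
      calc _ ≤ 1 * ‖∑ i ∈ range m, a i • x (φ i)‖ := mul_le_mul_of_nonneg_right h3 h2
        _ = _ := one_mul _
    | succ n hn ih =>
      refine le_trans ?_ (hstep n)
      have h2 : 0 ≤ ‖∑ i ∈ range m, a i • x (φ i)‖ := norm_nonneg _
      obtain ⟨q, hq⟩ : ∃ q : ℝ, q = (1 / 2 : ℝ) ^ n := ⟨_, rfl⟩
      have hq0 : 0 < q := by rw [hq]; positivity
      have hq1 : q ≤ 1 := by rw [hq]; exact pow_le_one₀ (by norm_num) (by norm_num)
      have e1 : (1 / 2 : ℝ) ^ (n + 1) = q / 2 := by rw [pow_succ, ← hq]; ring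
      have e2 : (1 / 2 : ℝ) ^ (n + 2) = q / 4 := by rw [pow_add, ← hq]; ring
      rw [← hq] at ih
      rw [e1, e2]
      have hθq : 0 < θ * q := mul_pos hθ0 hq0
      have hθq1 : θ * q ≤ θ := by nlinarith
      have h3 : (1 - θ * (q / 4)) * (((1 - θ) + θ * q) * ‖∑ i ∈ range m, a i • x (φ i)‖) ≤
          (1 - θ * (q / 4)) * ‖∑ i ∈ range n, a i • x (φ i)‖ :=
        mul_le_mul_of_nonneg_left ih (by linarith)
      refine le_trans ?_ h3
      rw [← mul_assoc]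
      apply mul_le_mul_of_nonneg_right _ h2
      nlinarith
  have h1 := key n hmn
  have h2 : 0 ≤ ‖∑ i ∈ range m, a i • x (φ i)‖ := norm_nonneg _
  have h3 : (0 : ℝ) ≤ θ * (1 / 2 : ℝ) ^ n := by positivity
  have h4 : (1 - θ) * ‖∑ i ∈ range m, a i • x (φ i)‖ ≤ ‖∑ i ∈ range n, a i • x (φ i)‖ := by
    nlinarith [mul_nonneg h3 h2]
  calc ‖∑ i ∈ range m, a i • x (φ i)‖
      = (1 + η) * ((1 - θ) * ‖∑ i ∈ range m, a i • x (φ i)‖) := by
        rw [← mul_assoc, hθ1, one_mul]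
    _ ≤ (1 + η) * ‖∑ i ∈ range n, a i • x (φ i)‖ :=
        mul_le_mul_of_nonneg_left h4 (by linarith)

end Pool.Agent.Y276.El
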