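import Pool.Agent.Elton955.Scales

/-!
# From a fixed scale to all scales, with no loss in the constant
-/

set_option autoImplicit false

open Filter Finset Topology

namespace Pool.Agent.Y276.El

open Elton955 Elton955.Sel Elton955.Scales

theorem scales_final' {E : Type*} [NormedAddCommGroup E] [NormedSpace ℝ E] (x : ℕ → E)
    (hx1 : ∀ n, ‖x n‖ = 1)
    (hb : ∀ (a : ℕ → ℝ) (m n : ℕ), m ≤ n →
      ‖∑ i ∈ range m, a i • x i‖ ≤ 2 * ‖∑ i ∈ range n, a i • x i‖)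
    (δ : ℝ) (hδ : 0 < δ) (η : ℝ) (hη : 0 < η) (I : ℕ → ℕ)
    (hI : ∀ i j : ℕ, ⌊η * ((1 + η) ^ i * δ / 4) / (1 + η)⌋₊ ≤ j → i ≤ I j)
    (φ : ℕ → ℕ) (hφ : StrictMono φ)
    (hP : ∀ j, ∀ i ≤ I j, Qsc x δ ((1 + η) ^ (i + 1) * δ / 4) (fun i => φ (j + i)))
    (n : ℕ) (a : ℕ → ℝ) (G : Finset ℕ) (ha : ∀ i < n, |a i| ≤ 1)
    (hG : G ⊆ range n) (hGδ : ∀ i ∈ G, δ ≤ |a i|) :
    ‖∑ i ∈ G, a i • x (φ i)‖ ≤ (24 * (1 + η) ^ 2 + η) * ‖∑ i ∈ range n, a i • x (φ i)‖ := by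
  have h1η : 1 < 1 + η := by linarith
  have hbφ : ∀ m m' : ℕ, m ≤ m' →
      ‖∑ i ∈ range m, a i • x (φ i)‖ ≤ 2 * ‖∑ i ∈ range m', a i • x (φ i)‖ := by
    intro m m' hm
    have := hb (Function.extend φ a 0) (φ m) (φ m') (hφ.monotone hm)
    rwa [ext_sum_range x φ hφ, ext_sum_range x φ hφ] at this
  rcases G.eq_empty_or_nonempty with hGe | ⟨g, hg⟩
  · subst hGe
    rw [Finset.sum_empty, norm_zero]
    positivity
  set Y := ‖∑ i ∈ range n, a i • x (φ i)‖ with hY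
  have hY0 : 0 ≤ Y := norm_nonneg _
  have hgn : g < n := Finset.mem_range.mp (hG hg)
  have hYδ : δ / 4 ≤ Y := by
    have h1 : a g • x (φ g) = ∑ i ∈ range (g + 1), a i • x (φ i) -
        ∑ i ∈ range g, a i • x (φ i) := by
      rw [Finset.sum_range_succ]; abel
    have h2 : |a g| = ‖a g • x (φ g)‖ := by
      rw [norm_smul, hx1, mul_one, Real.norm_eq_abs]
    have h3 := norm_sub_le (∑ i ∈ range (g + 1), a i • x (φ i)) (∑ i ∈ range g, a i • x (φ i))
    rw [← h1, ← h2] at h3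
    have h4 := hbφ (g + 1) n hgn
    have h5 := hbφ g n hgn.le
    have h6 := hGδ g hg
    linarith
  have hex : ∃ i : ℕ, Y ≤ (1 + η) ^ i * δ / 4 := by
    obtain ⟨i, hi⟩ := pow_unbounded_of_one_lt (Y * 4 / δ) h1η
    refine ⟨i, ?_⟩
    rw [div_lt_iff₀ hδ] at hi
    linarith
  classical
  obtain ⟨i, hi, hmin⟩ : ∃ i : ℕ, Y ≤ (1 + η) ^ i * δ / 4 ∧
      ∀ k < i, ¬ (Y ≤ (1 + η) ^ k * δ / 4) :=
    ⟨Nat.find hex, Nat.find_spec hex, fun k hk => Nat.find_min hex hk⟩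
  obtain ⟨ν, hν⟩ : ∃ ν : ℝ, ν = (1 + η) ^ i * δ / 4 := ⟨_, rfl⟩
  have hν0 : 0 < ν := by rw [hν]; positivity
  rw [← hν] at hi
  have hν1 : (1 + η) ^ (i + 1) * δ / 4 = (1 + η) * ν := by rw [hν, pow_succ]; ring
  have hi2 : ν ≤ (1 + η) * Y := by
    rcases Nat.eq_zero_or_pos i with h0 | h0
    · subst h0
      rw [pow_zero, one_mul] at hν
      rw [hν]
      nlinarith
    · obtain ⟨k, rfl⟩ : ∃ k, i = k + 1 := ⟨i - 1, by omega⟩
      have h := hmin k (Nat.lt_succ_self k)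
      push Not at h
      have h2 : ν = (1 + η) * ((1 + η) ^ k * δ / 4) := by rw [hν, pow_succ]; ring
      rw [h2]
      exact mul_le_mul_of_nonneg_left h.le (by linarith)
  obtain ⟨j0, hj0⟩ : ∃ j0 : ℕ, j0 = ⌊η * ((1 + η) ^ i * δ / 4) / (1 + η)⌋₊ := ⟨_, rfl⟩
  have hj0Y : (j0 : ℝ) ≤ η * Y := by
    have h1 : (j0 : ℝ) ≤ η * ν / (1 + η) := by
      rw [hj0, hν]
      exact Nat.floor_le (by positivity)
    refine h1.trans ?_
    rw [div_le_iff₀ (by linarith)]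
    nlinarith
  have hhead : ∀ H : Finset ℕ, H ⊆ range j0 → H ⊆ range n →
      ‖∑ k ∈ H, a k • x (φ k)‖ ≤ η * Y := by
    intro H h1 h2
    have h3 : ‖∑ k ∈ H, a k • x (φ k)‖ ≤ ∑ k ∈ H, (1 : ℝ) := by
      refine norm_sum_le_of_le _ fun k hk => ?_
      rw [norm_smul, hx1, mul_one, Real.norm_eq_abs]
      exact ha k (Finset.mem_range.mp (h2 hk))
    rw [Finset.sum_const, nsmul_eq_mul, mul_one] at h3
    have h4 : (H.card : ℝ) ≤ (j0 : ℝ) := by
      have := Finset.card_le_card h1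
      rw [Finset.card_range] at this
      exact_mod_cast this
    linarith
  -- split `G`
  have hsplit : ∑ k ∈ G, a k • x (φ k) = ∑ k ∈ G.filter (fun k => k < j0), a k • x (φ k) +
      ∑ k ∈ G.filter (fun k => ¬ k < j0), a k • x (φ k) :=
    (Finset.sum_filter_add_sum_filter_not G _ _).symm
  have hpart1 : ‖∑ k ∈ G.filter (fun k => k < j0), a k • x (φ k)‖ ≤ η * Y := by
    refine hhead _ ?_ ((Finset.filter_subset _ _).trans hG)
    intro k hk
    exact Finset.mem_range.mpr (Finset.mem_filter.mp hk).2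
  have hpart2 : ‖∑ k ∈ G.filter (fun k => ¬ k < j0), a k • x (φ k)‖ ≤
      24 * (1 + η) ^ 2 * Y := by
    rcases le_total j0 n with hjn | hjn
    · have hidx : i ≤ I j0 := hI i j0 (by rw [hj0])
      have hQ := hP j0 i hidx (n - j0) (fun k => a (j0 + k))
        ((range (n - j0)).filter (fun k => j0 + k ∈ G)) (Finset.filter_subset _ _) (by
          intro k hk
          exact hGδ _ (Finset.mem_filter.mp hk).2) (by
          have h1 : ∑ k ∈ range (n - j0), a (j0 + k) • x (φ (j0 + k)) =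
              ∑ k ∈ range n, a k • x (φ k) - ∑ k ∈ range j0, a k • x (φ k) := by
            rw [← Finset.sum_Ico_eq_sum_range (fun k => a k • x (φ k)) j0 n,
              Finset.sum_Ico_eq_sub _ hjn]
          show ‖∑ k ∈ range (n - j0), a (j0 + k) • x (φ (j0 + k))‖ ≤ _
          rw [h1]
          have h2 := norm_sub_le (∑ k ∈ range n, a k • x (φ k)) (∑ k ∈ range j0, a k • x (φ k))
          have h3 := hhead (range j0) subset_rfl (Finset.range_subset_range.2 hjn)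
          rw [← hY] at h2
          rw [hν1]
          have h4 : (1 + η) * Y ≤ (1 + η) * ν := mul_le_mul_of_nonneg_left hi (by linarith)
          linarith)
      have heq : ∑ k ∈ (range (n - j0)).filter (fun k => j0 + k ∈ G),
          (fun k => a (j0 + k)) k • x ((fun i => φ (j0 + i)) k) =
          ∑ k ∈ G.filter (fun k => ¬ k < j0), a k • x (φ k) := by
        refine Finset.sum_nbij' (fun k => j0 + k) (fun k => k - j0) ?_ ?_ ?_ ?_ ?_
        · intro k hk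
          have := (Finset.mem_filter.mp hk).2
          exact Finset.mem_filter.mpr ⟨this, by omega⟩
        · intro k hk
          obtain ⟨h1, h2⟩ := Finset.mem_filter.mp hk
          have h3 := Finset.mem_range.mp (hG h1)
          refine Finset.mem_filter.mpr ⟨Finset.mem_range.mpr (by omega), ?_⟩
          rw [show j0 + (k - j0) = k by omega]
          exact h1
        · intro k _
          show j0 + k - j0 = k
          omega
        · intro k hk
          obtain ⟨h1, h2⟩ := Finset.mem_filter.mp hk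
          show j0 + (k - j0) = k
          omega
        · intro k _
          rfl
      rw [heq, hν1] at hQ
      have h5 : (1 + η) * ν ≤ (1 + η) * ((1 + η) * Y) :=
        mul_le_mul_of_nonneg_left hi2 (by linarith)
      have h6 : 24 * (1 + η) ^ 2 * Y = 24 * ((1 + η) * ((1 + η) * Y)) := by ring
      rw [h6]
      linarith
    · have : G.filter (fun k => ¬ k < j0) = ∅ := by
        apply Finset.filter_eq_empty_iff.mpr
        intro k hk
        have := Finset.mem_range.mp (hG hk)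
        omega
      rw [this, Finset.sum_empty, norm_zero]
      positivity
  rw [hsplit]
  have := norm_add_le (∑ k ∈ G.filter (fun k => k < j0), a k • x (φ k))
    (∑ k ∈ G.filter (fun k => ¬ k < j0), a k • x (φ k))
  linarith

theorem scales' {E : Type*} [NormedAddCommGroup E] [NormedSpace ℝ E] (x : ℕ → E)
    (hx1 : ∀ n, ‖x n‖ = 1)
    (hb : ∀ (a : ℕ → ℝ) (m n : ℕ), m ≤ n →
      ‖∑ i ∈ range m, a i • x i‖ ≤ 2 * ‖∑ i ∈ range n, a i • x i‖)
    (hFS : ∀ δ : ℝ, 0 < δ → ∀ φ : ℕ → ℕ, StrictMono φ → ∃ ψ : ℕ → ℕ, StrictMono ψ ∧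
      ∀ (n : ℕ) (a : ℕ → ℝ) (G : Finset ℕ), G ⊆ range n → (∀ i ∈ G, δ ≤ |a i|) →
        ‖∑ i ∈ range n, a i • x (φ (ψ i))‖ ≤ 1 → ‖∑ i ∈ G, a i • x (φ (ψ i))‖ ≤ 24)
    (δ : ℝ) (hδ : 0 < δ) (η : ℝ) (hη : 0 < η) :
    ∃ φ : ℕ → ℕ, StrictMono φ ∧ ∀ (n : ℕ) (a : ℕ → ℝ) (G : Finset ℕ), (∀ i < n, |a i| ≤ 1) →
      G ⊆ range n → (∀ i ∈ G, δ ≤ |a i|) →
      ‖∑ i ∈ G, a i • x (φ i)‖ ≤ (24 * (1 + η) ^ 2 + η) * ‖∑ i ∈ range n, a i • x (φ i)‖ := by
  have h1η : 1 < 1 + η := by linarith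
  have hex : ∀ j : ℕ, ∃ I : ℕ, ∀ i : ℕ, ⌊η * ((1 + η) ^ i * δ / 4) / (1 + η)⌋₊ ≤ j → i ≤ I := by
    intro j
    obtain ⟨I, hI⟩ := pow_unbounded_of_one_lt (((j : ℝ) + 1) * (1 + η) * 4 / (η * δ)) h1η
    refine ⟨I, fun i hi => ?_⟩
    by_contra hcon
    push Not at hcon
    have h1 : (1 + η) ^ I ≤ (1 + η) ^ i := pow_le_pow_right₀ h1η.le hcon.le
    have h2 : ((j : ℝ) + 1) * (1 + η) * 4 / (η * δ) < (1 + η) ^ i := hI.trans_le h1
    rw [div_lt_iff₀ (by positivity)] at h2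
    have h3 : ((j + 1 : ℕ) : ℝ) ≤ η * ((1 + η) ^ i * δ / 4) / (1 + η) := by
      rw [le_div_iff₀ (by linarith)]
      push_cast
      nlinarith
    have h4 := Nat.le_floor h3
    omega
  choose I hI using hex
  have hν : ∀ i : ℕ, 0 < (1 + η) ^ (i + 1) * δ / 4 := fun i => by positivity
  obtain ⟨φ, hφ, hP⟩ := diag (fun j φ => ∀ i ≤ I j, Qsc x δ ((1 + η) ^ (i + 1) * δ / 4) φ)
    (fun j φ ψ _ hψ h i hi => (h i hi).comp hψ)
    (fun j φ hφ => by
      obtain ⟨ψ, hψ, h⟩ := Qsc.dense x hFS δ hδ (fun i => (1 + η) ^ (i + 1) * δ / 4) hν φ hφ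
        (I j + 1)
      exact ⟨ψ, hψ, fun i hi => h i (by omega)⟩)
  exact ⟨φ, hφ, fun n a G ha hG hGδ => scales_final' x hx1 hb δ hδ η hη I (fun i j h => hI j i h)
    φ hφ hP n a G ha hG hGδ⟩

end Pool.Agent.Y276.El
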