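import Pool.Agent.Elton955.Final
import Pool.Agent.Y276.El.Maz
import Pool.Agent.Y276.El.Sca

/-!
# One subsequence for all scales
-/

set_option autoImplicit false

open Filter Finset Topology

namespace Pool.Agent.Y276.El

open Elton955 Elton955.Sel Elton955.Scales

variable {E : Type*} [NormedAddCommGroup E] [NormedSpace ℝ E]

/-- `x ∘ φ` is near unconditional for coefficients at least `d`, with constant `c` -/
def R (x : ℕ → E) (c d : ℝ) (φ : ℕ → ℕ) : Prop :=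
  ∀ (n : ℕ) (a : ℕ → ℝ) (G : Finset ℕ), (∀ i < n, |a i| ≤ 1) → G ⊆ range n →
    (∀ i ∈ G, d ≤ |a i|) →
    ‖∑ i ∈ G, a i • x (φ i)‖ ≤ c * ‖∑ i ∈ range n, a i • x (φ i)‖

theorem R.comp {x : ℕ → E} {c d : ℝ} {φ : ℕ → ℕ} (h : R x c d φ) {ψ : ℕ → ℕ}
    (hψ : StrictMono ψ) : R x c d (φ ∘ ψ) := by
  intro n a G ha hG hd
  have h1 := h (ψ n) (Function.extend ψ a 0) (G.image ψ) (by
    intro j hj
    by_cases hex : ∃ i, ψ i = j
    · obtain ⟨i, rfl⟩ := hex
      rw [hψ.injective.extend_apply]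
      exact ha i (hψ.lt_iff_lt.1 hj)
    · rw [Function.extend_apply' _ _ _ hex]
      simp) (by
    intro j hj
    obtain ⟨i, hi, rfl⟩ := Finset.mem_image.mp hj
    exact Finset.mem_range.mpr (hψ (Finset.mem_range.mp (hG hi)))) (by
    intro j hj
    obtain ⟨i, hi, rfl⟩ := Finset.mem_image.mp hj
    rw [hψ.injective.extend_apply]
    exact hd i hi)
  rw [ext_sum_range (fun i => x (φ i)) ψ hψ a n, ext_sum (fun i => x (φ i)) ψ hψ a G] at h1
  exact h1

/-- the constant `24 + ε` for one scale -/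
theorem one_scale (x : ℕ → E) (hx1 : ∀ n, ‖x n‖ = 1)
    (hx0 : ∀ f : E →L[ℝ] ℝ, Tendsto (fun n => f (x n)) atTop (𝓝 0))
    (hb : ∀ (a : ℕ → ℝ) (m n : ℕ), m ≤ n →
      ‖∑ i ∈ range m, a i • x i‖ ≤ 2 * ‖∑ i ∈ range n, a i • x i‖)
    (d : ℝ) (hd : 0 < d) (ε : ℝ) (hε : 0 < ε) :
    ∃ φ : ℕ → ℕ, StrictMono φ ∧ R x (24 + ε) d φ := by
  obtain ⟨η, hη⟩ : ∃ η : ℝ, η = min 1 (ε / 73) := ⟨_, rfl⟩
  have hη0 : 0 < η := by rw [hη]; exact lt_min one_pos (by positivity)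
  have hη1 : η ≤ 1 := by rw [hη]; exact min_le_left _ _
  have hη2 : 73 * η ≤ ε := by
    have : η ≤ ε / 73 := by rw [hη]; exact min_le_right _ _
    linarith
  obtain ⟨φ, hφ, hP⟩ := scales' x hx1 hb
    (by
      intro δ' hδ' φ hφ
      obtain ⟨ψ, hψ, h⟩ := Elton955.Fin.fs_one (fun i => x (φ i)) (fun i => hx1 _)
        (fun f => (hx0 f).comp hφ.tendsto_atTop)
        (Elton955.Fin.hb_sub (x := x) hb hφ) δ' hδ'
      exact ⟨ψ, hψ, h⟩) d hd η hη0
  refine ⟨φ, hφ, fun n a G ha hG hGd => (hP n a G ha hG hGd).trans ?_⟩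
  refine mul_le_mul_of_nonneg_right ?_ (norm_nonneg _)
  nlinarith

/-- one subsequence for all scales -/
theorem all_scales (x : ℕ → E) (hx1 : ∀ n, ‖x n‖ = 1)
    (hx0 : ∀ f : E →L[ℝ] ℝ, Tendsto (fun n => f (x n)) atTop (𝓝 0))
    (d : ℕ → ℝ) (hd : ∀ j, 0 < d j) (ε : ℝ) (hε : 0 < ε) :
    ∃ φ : ℕ → ℕ, StrictMono φ ∧
      (∀ (a : ℕ → ℝ) (m n : ℕ), m ≤ n →
        ‖∑ i ∈ range m, a i • x (φ i)‖ ≤ (1 + ε) * ‖∑ i ∈ range n, a i • x (φ i)‖) ∧
      (∀ j, R x (24 + ε) (d j) (fun i => φ (j + i))) ∧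
      ∀ (n : ℕ) (a : ℕ → ℝ) (j : ℕ) (G : Finset ℕ), (∀ i < n, |a i| ≤ 1) → G ⊆ range n →
        (∀ i ∈ G, j ≤ i ∧ d j ≤ |a i|) →
        ‖∑ i ∈ G, a i • x (φ i)‖ ≤ (48 + ε) * ‖∑ i ∈ range n, a i • x (φ i)‖ := by
  -- the auxiliary parameter
  obtain ⟨η, hη⟩ : ∃ η : ℝ, η = min 1 (ε / 27) := ⟨_, rfl⟩
  have hη0 : 0 < η := by rw [hη]; exact lt_min one_pos (by positivity)
  have hη1 : η ≤ 1 := by rw [hη]; exact min_le_left _ _
  have hη2 : 27 * η ≤ ε := by
    have : η ≤ ε / 27 := by rw [hη]; exact min_le_right _ _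
    linarith
  obtain ⟨φ0, hφ0, hb0⟩ := mazur_eta x hx1 hx0 η hη0
  obtain ⟨φ1, hφ1, hR⟩ := diag (fun j φ => R (fun i => x (φ0 i)) (24 + η) (d j) φ)
    (fun j φ ψ _ hψ h => h.comp hψ)
    (fun j φ hφ => by
      have hb2 : ∀ (a : ℕ → ℝ) (m n : ℕ), m ≤ n →
          ‖∑ i ∈ range m, a i • x (φ0 i)‖ ≤ 2 * ‖∑ i ∈ range n, a i • x (φ0 i)‖ := by
        intro a m n hmn
        refine (hb0 a m n hmn).trans ?_
        exact mul_le_mul_of_nonneg_right (by linarith) (norm_nonneg _)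
      obtain ⟨ψ, hψ, h⟩ := one_scale (fun i => x (φ0 (φ i))) (fun i => hx1 _)
        (fun f => (hx0 f).comp (hφ0.comp hφ).tendsto_atTop)
        (Elton955.Fin.hb_sub (x := fun i => x (φ0 i)) hb2 hφ) (d j) (hd j) η hη0
      exact ⟨ψ, hψ, h⟩)
  -- the basis constant of the subsequence
  have hbe : ∀ (a : ℕ → ℝ) (m n : ℕ), m ≤ n →
      ‖∑ i ∈ range m, a i • x (φ0 (φ1 i))‖ ≤ (1 + η) * ‖∑ i ∈ range n, a i • x (φ0 (φ1 i))‖ := by
    intro a m n hmn
    have := hb0 (Function.extend φ1 a 0) (φ1 m) (φ1 n) (hφ1.monotone hmn)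
    rwa [ext_sum_range (fun i => x (φ0 i)) φ1 hφ1, ext_sum_range (fun i => x (φ0 i)) φ1 hφ1] at this
  refine ⟨fun i => φ0 (φ1 i), hφ0.comp hφ1, ?_, ?_, ?_⟩
  · intro a m n hmn
    refine (hbe a m n hmn).trans ?_
    exact mul_le_mul_of_nonneg_right (by linarith) (norm_nonneg _)
  · intro j n a G ha hG hGd
    refine (hR j n a G ha hG hGd).trans ?_
    exact mul_le_mul_of_nonneg_right (by linarith) (norm_nonneg _)
  · intro n a j G ha hG hGd
    rcases G.eq_empty_or_nonempty with rfl | ⟨g, hg⟩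
    · rw [Finset.sum_empty, norm_zero]
      positivity
    have hjn : j ≤ n := by
      have h1 := (hGd g hg).1
      have h2 := mem_range.1 (hG hg)
      omega
    set Y := ‖∑ i ∈ range n, a i • x (φ0 (φ1 i))‖ with hY
    have hY0 : 0 ≤ Y := norm_nonneg _
    have htail : ‖∑ i ∈ range (n - j), a (j + i) • x (φ0 (φ1 (j + i)))‖ ≤ (2 + η) * Y := by
      have h1 : ∑ k ∈ range (n - j), a (j + k) • x (φ0 (φ1 (j + k))) =
          ∑ k ∈ range n, a k • x (φ0 (φ1 k)) - ∑ k ∈ range j, a k • x (φ0 (φ1 k)) := by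
        rw [← Finset.sum_Ico_eq_sum_range (fun k => a k • x (φ0 (φ1 k))) j n,
          Finset.sum_Ico_eq_sub _ hjn]
      rw [h1]
      have h2 := norm_sub_le (∑ k ∈ range n, a k • x (φ0 (φ1 k)))
        (∑ k ∈ range j, a k • x (φ0 (φ1 k)))
      have h3 := hbe a j n hjn
      rw [← hY] at h2 h3
      linarith
    have hQ := hR j (n - j) (fun k => a (j + k))
      ((range (n - j)).filter (fun k => j + k ∈ G)) (by
        intro i hi
        exact ha _ (by omega)) (Finset.filter_subset _ _) (by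
        intro k hk
        exact (hGd _ (Finset.mem_filter.mp hk).2).2)
    have heq : ∑ k ∈ (range (n - j)).filter (fun k => j + k ∈ G),
        (fun k => a (j + k)) k • (fun i => x (φ0 i)) ((fun i => φ1 (j + i)) k) =
        ∑ k ∈ G, a k • x (φ0 (φ1 k)) := by
      refine Finset.sum_nbij' (fun k => j + k) (fun k => k - j) ?_ ?_ ?_ ?_ ?_
      · intro k hk
        exact (Finset.mem_filter.mp hk).2
      · intro k hk
        have h2 := (hGd k hk).1
        have h3 := Finset.mem_range.mp (hG hk)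
        refine Finset.mem_filter.mpr ⟨Finset.mem_range.mpr (by omega), ?_⟩
        rw [show j + (k - j) = k by omega]
        exact hk
      · intro k _
        show j + k - j = k
        omega
      · intro k hk
        have h2 := (hGd k hk).1
        show j + (k - j) = k
        omega
      · intro k _
        rfl
    rw [heq] at hQ
    calc ‖∑ k ∈ G, a k • x (φ0 (φ1 k))‖
        ≤ (24 + η) * ‖∑ i ∈ range (n - j), a (j + i) • x (φ0 (φ1 (j + i)))‖ := hQ
      _ ≤ (24 + η) * ((2 + η) * Y) := mul_le_mul_of_nonneg_left htail (by linarith)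
      _ = ((24 + η) * (2 + η)) * Y := by ring
      _ ≤ (48 + ε) * Y := by
          refine mul_le_mul_of_nonneg_right ?_ hY0
          nlinarith

end Pool.Agent.Y276.El
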